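import Pool.Agent.N594.CT.Stm2

/-!
# CT/FD: few bad sequences for the sets of almost full degree (helper424)
-/

set_option autoImplicit false
set_option linter.all false

open Finset
open scoped Classical

namespace Pool.Agent.N424.CT.FD

open Pool.Agent.N594.CT

/-- the number of the `t`-sets containing a given `s`-set -/
theorem card_super {n : ℕ} (t : ℕ) (Y : Finset (Fin n)) (h : Y.card ≤ t) :
    (((univ : Finset (Fin n)).powersetCard t).filter fun e => Y ⊆ e).card =
      (n - Y.card).choose (t - Y.card) := by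
  have h1 : (((univ : Finset (Fin n)) \ Y).powersetCard (t - Y.card)).card =
      (n - Y.card).choose (t - Y.card) := by
    rw [card_powersetCard, card_univ_diff, Fintype.card_fin]
  rw [← h1]
  refine Finset.card_nbij' (fun e => e \ Y) (fun e => e ∪ Y) ?_ ?_ ?_ ?_
  · intro e he
    simp only [coe_filter, mem_powersetCard, Set.mem_ofPred_eq, mem_coe] at he ⊢
    refine ⟨sdiff_subset_sdiff (subset_univ _) subset_rfl, ?_⟩
    rw [card_sdiff_of_subset he.2, he.1.2]
  · intro e he
    simp only [coe_filter, mem_powersetCard, Set.mem_ofPred_eq, mem_coe] at he ⊢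
    refine ⟨⟨subset_univ _, ?_⟩, subset_union_right⟩
    have hd : Disjoint e Y := by
      rw [Finset.disjoint_left]
      intro a ha hY
      exact (mem_sdiff.1 (he.1 ha)).2 hY
    rw [card_union_of_disjoint hd, he.2]
    omega
  · intro e he
    simp only [coe_filter, mem_powersetCard, Set.mem_ofPred_eq, mem_coe] at he
    exact sdiff_union_of_subset he.2
  · intro e he
    simp only [mem_powersetCard, mem_coe] at he
    have hd : Disjoint e Y := by
      rw [Finset.disjoint_left]
      intro a ha hY
      exact (mem_sdiff.1 (he.1 ha)).2 hY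
    simp only
    rw [union_sdiff_right]
    exact sdiff_eq_self_of_disjoint hd

/-- the number of the non-edges containing a set of almost full degree -/
theorem card_non {n s t : ℕ} (hst : s ≤ t) {ε : ℝ} {G : Finset (Finset (Fin n))}
    (hG : ∀ e ∈ G, e.card = t) {Y : Finset (Fin n)} (hY : Y ∈ full s t ε G) :
    ((((univ : Finset (Fin n)).powersetCard t).filter fun e => Y ⊆ e ∧ e ∉ G).card : ℝ) ≤
      ε * ((n - s).choose (t - s) : ℝ) := by
  unfold full at hY
  rw [mem_filter, mem_powersetCard] at hY
  obtain ⟨⟨-, hYs⟩, hY⟩ := hY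
  have h1 := card_super t Y (by omega)
  rw [hYs] at h1
  have h2 : (((univ : Finset (Fin n)).powersetCard t).filter fun e => Y ⊆ e).card =
      degr G Y + (((univ : Finset (Fin n)).powersetCard t).filter fun e => Y ⊆ e ∧ e ∉ G).card := by
    rw [← Finset.card_filter_add_card_filter_not (s := ((univ : Finset (Fin n)).powersetCard t).filter
      fun e => Y ⊆ e) (fun e => e ∈ G), filter_filter, filter_filter]
    congr 1
    unfold degr
    congr 1
    ext e
    simp only [mem_filter, mem_powersetCard]
    constructor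
    · rintro ⟨-, h3, h4⟩
      exact ⟨h4, h3⟩
    · rintro ⟨h3, h4⟩
      exact ⟨⟨subset_univ _, hG e h3⟩, h4, h3⟩
  have h3 : (((n - s).choose (t - s) : ℕ) : ℝ) = (degr G Y : ℝ) +
      ((((univ : Finset (Fin n)).powersetCard t).filter fun e => Y ⊆ e ∧ e ∉ G).card : ℝ) := by
    rw [← h1, h2]
    push_cast
    rfl
  linarith

/-- the extensions -/
theorem card_ext {n s t : ℕ} (hst : s ≤ t) {ε : ℝ} (hε : 0 ≤ ε) {G : Finset (Finset (Fin n))}
    (hG : ∀ e ∈ G, e.card = t) {Y : Finset (Fin n)} (hY : Y ∈ full s t ε G) (α : Type) [Fintype α]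
    [DecidableEq α]
    (hα : Fintype.card α = t - s) :
    ((univ.filter fun h : α → Fin n => Function.Injective h ∧ (∀ a, h a ∉ Y) ∧
      Y ∪ univ.image h ∉ G).card : ℝ) ≤ ε * (n : ℝ) ^ (t - s) := by
  have hYs : Y.card = s := by
    unfold full at hY
    rw [mem_filter, mem_powersetCard] at hY
    exact hY.1.2
  have h1 : (univ.filter fun h : α → Fin n => Function.Injective h ∧ (∀ a, h a ∉ Y) ∧
      Y ∪ univ.image h ∉ G).card ≤ (t - s).factorial *
      (((univ : Finset (Fin n)).powersetCard t).filter fun e => Y ⊆ e ∧ e ∉ G).card := by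
    apply Finset.card_le_mul_card_image_of_maps_to (f := fun h : α → Fin n => Y ∪ univ.image h)
    · intro h hh
      rw [mem_filter] at hh
      obtain ⟨-, hi, hn, hg⟩ := hh
      rw [mem_filter, mem_powersetCard]
      refine ⟨⟨subset_univ _, ?_⟩, subset_union_left, hg⟩
      have hd : Disjoint Y (univ.image h) := by
        rw [Finset.disjoint_right]
        intro a ha
        obtain ⟨b, -, rfl⟩ := mem_image.1 ha
        exact hn b
      rw [card_union_of_disjoint hd, card_image_of_injective _ hi, card_univ, hα, hYs]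
      omega
    · intro e he
      rw [mem_filter, mem_powersetCard] at he
      obtain ⟨⟨-, het⟩, hYe, -⟩ := he
      have hcard : Fintype.card ↥(e \ Y) = t - s := by
        rw [Fintype.card_coe, card_sdiff_of_subset hYe, het, hYs]
      have h2 : Fintype.card (α ↪ ↥(e \ Y)) = (t - s).factorial := by
        rw [Fintype.card_embedding_eq, hcard, hα, Nat.descFactorial_self]
      rw [← h2, ← Finset.card_univ]
      have hmem : ∀ h : α → Fin n, (∀ a, h a ∉ Y) → Y ∪ univ.image h = e → ∀ a, h a ∈ e \ Y := by
        intro h hn hu a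
        rw [mem_sdiff]
        refine ⟨?_, hn a⟩
        rw [← hu]
        exact mem_union_right _ (mem_image_of_mem _ (mem_univ a))
      refine Finset.card_le_card_of_injOn (fun h => if hh : (Function.Injective h ∧ (∀ a, h a ∉ Y) ∧
        Y ∪ univ.image h = e) then ⟨fun a => ⟨h a, hmem h hh.2.1 hh.2.2 a⟩, fun a b hab =>
          hh.1 (congrArg Subtype.val hab)⟩ else Classical.choice ?_) ?_ ?_
      · have : 0 < Fintype.card (α ↪ ↥(e \ Y)) := by
          rw [h2]
          exact Nat.factorial_pos _
        exact Fintype.card_pos_iff.1 this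
      · intro h _
        exact mem_coe.2 (mem_univ _)
      · intro h hh h' hh' heq
        simp only [coe_filter, mem_filter, mem_univ, true_and, Set.mem_ofPred_eq] at hh hh'
        obtain ⟨⟨a1, a2, a3⟩, a4⟩ := hh
        obtain ⟨⟨b1, b2, b3⟩, b4⟩ := hh'
        simp only at heq
        rw [dif_pos ⟨a1, a2, a4⟩, dif_pos ⟨b1, b2, b4⟩] at heq
        funext a
        have := congrArg (fun g : α ↪ ↥(e \ Y) => ((g a : ↥(e \ Y)) : Fin n)) heq
        exact this
  have h2 := card_non hst hG hY
  have h3 : ((t - s).factorial : ℝ) * ((n - s).choose (t - s) : ℝ) ≤ (n : ℝ) ^ (t - s) := by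
    have h4 : (t - s).factorial * (n - s).choose (t - s) ≤ n ^ (t - s) := by
      rw [← Nat.descFactorial_eq_factorial_mul_choose]
      exact (Nat.descFactorial_le_pow _ _).trans (Nat.pow_le_pow_left (Nat.sub_le _ _) _)
    exact_mod_cast h4
  calc ((univ.filter fun h : α → Fin n => Function.Injective h ∧ (∀ a, h a ∉ Y) ∧
      Y ∪ univ.image h ∉ G).card : ℝ) ≤ ((t - s).factorial : ℝ) *
      ((((univ : Finset (Fin n)).powersetCard t).filter fun e => Y ⊆ e ∧ e ∉ G).card : ℝ) := by
        exact_mod_cast h1
    _ ≤ ((t - s).factorial : ℝ) * (ε * ((n - s).choose (t - s) : ℝ)) :=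
        mul_le_mul_of_nonneg_left h2 (by positivity)
    _ = ε * (((t - s).factorial : ℝ) * ((n - s).choose (t - s) : ℝ)) := by ring
    _ ≤ ε * (n : ℝ) ^ (t - s) := mul_le_mul_of_nonneg_left h3 hε

/-- the sequences for which `X` is mapped to a set of almost full degree and `J` to a non-edge -/
theorem card_A {n s t m : ℕ} (hst : s ≤ t) {ε : ℝ} (hε : 0 ≤ ε) {G : Finset (Finset (Fin n))}
    (hG : ∀ e ∈ G, e.card = t) (J X : Finset (Fin m)) (hXJ : X ⊆ J) (hJ : J.card = t) :
    ((univ.filter fun φ : Fin m → Fin n => Function.Injective φ ∧ X.image φ ∈ full s t ε G ∧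
      J.image φ ∉ G).card : ℝ) ≤ ε * (n : ℝ) ^ m := by
  obtain ⟨A, hA⟩ : ∃ A, A = univ.filter fun φ : Fin m → Fin n => Function.Injective φ ∧
    X.image φ ∈ full s t ε G ∧ J.image φ ∉ G := ⟨_, rfl⟩
  rw [← hA]
  by_cases hX : X.card = s
  swap
  · have : A = ∅ := by
      rw [Finset.eq_empty_iff_forall_notMem]
      intro φ hφ
      rw [hA, mem_filter] at hφ
      apply hX
      have h1 := hφ.2.2.1
      unfold full at h1
      rw [mem_filter, mem_powersetCard, card_image_of_injective _ hφ.2.1] at h1
      exact h1.1.2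
    rw [this, card_empty, Nat.cast_zero]
    positivity
  have hm : t ≤ m := by
    have := card_le_univ J
    rw [hJ, Fintype.card_fin] at this
    exact this
  have h1 : (A.card : ℝ) = ∑ b : (↥X → Fin n) × ({a : Fin m // a ∉ J} → Fin n),
      ((A.filter fun φ => ((fun a : ↥X => φ a, fun a : {a : Fin m // a ∉ J} => φ a) :
        (↥X → Fin n) × ({a : Fin m // a ∉ J} → Fin n)) = b).card : ℝ) := by
    rw [← Nat.cast_sum]
    congr 1
    exact Finset.card_eq_sum_card_fiberwise fun _ _ => mem_coe.2 (mem_univ _)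
  rw [h1]
  have h2 : ∀ b ∈ (univ : Finset ((↥X → Fin n) × ({a : Fin m // a ∉ J} → Fin n))),
      ((A.filter fun φ => ((fun a : ↥X => φ a, fun a : {a : Fin m // a ∉ J} => φ a) :
        (↥X → Fin n) × ({a : Fin m // a ∉ J} → Fin n)) = b).card : ℝ) ≤
      ε * (n : ℝ) ^ (t - s) := by
    rintro ⟨g, k⟩ -
    rcases Finset.eq_empty_or_nonempty (A.filter fun φ => ((fun a : ↥X => φ a,
      fun a : {a : Fin m // a ∉ J} => φ a) :
        (↥X → Fin n) × ({a : Fin m // a ∉ J} → Fin n)) = (g, k)) with h0 | ⟨φ0, hφ0⟩
    · rw [h0, card_empty, Nat.cast_zero]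
      positivity
    · have hYim : ∀ φ : Fin m → Fin n, (fun a : ↥X => φ a) = g → X.image φ = univ.image g := by
        intro φ hφ
        ext y
        simp only [mem_image, mem_univ, true_and]
        constructor
        · rintro ⟨a, ha, rfl⟩
          exact ⟨⟨a, ha⟩, (congrFun hφ ⟨a, ha⟩).symm⟩
        · rintro ⟨a, rfl⟩
          exact ⟨a, a.2, congrFun hφ a⟩
      have hYD : univ.image g ∈ full s t ε G := by
        rw [mem_filter, hA, mem_filter, Prod.mk.injEq] at hφ0
        rw [← hYim φ0 hφ0.2.1]
        exact hφ0.1.2.2.1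
      have h3 := card_ext hst hε hG hYD ↥(J \ X) (by
        rw [Fintype.card_coe, card_sdiff_of_subset hXJ, hJ, hX])
      refine le_trans ?_ h3
      have h4 : (A.filter fun φ => ((fun a : ↥X => φ a, fun a : {a : Fin m // a ∉ J} => φ a) :
          (↥X → Fin n) × ({a : Fin m // a ∉ J} → Fin n)) = (g, k)).card ≤
          (univ.filter fun h : ↥(J \ X) → Fin n => Function.Injective h ∧
            (∀ a, h a ∉ univ.image g) ∧ univ.image g ∪ univ.image h ∉ G).card := by
        apply Finset.card_le_card_of_injOn (fun (φ : Fin m → Fin n) (a : ↥(J \ X)) => φ a)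
        · intro φ hφ
          rw [mem_coe, mem_filter, hA, mem_filter, Prod.mk.injEq] at hφ
          obtain ⟨⟨-, hi, hXφ, hJφ⟩, hg, hk⟩ := hφ
          rw [mem_coe, mem_filter]
          refine ⟨mem_univ _, ?_, ?_, ?_⟩
          · intro a b hab
            exact Subtype.ext (hi hab)
          · intro a ha
            rw [← hYim φ hg, mem_image] at ha
            obtain ⟨b, hb, hab⟩ := ha
            have hba : b = a := hi hab
            have := (mem_sdiff.1 a.2).2
            rw [← hba] at this
            exact this hb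
          · have : univ.image g ∪ univ.image (fun a : ↥(J \ X) => φ a) = J.image φ := by
              rw [← hYim φ hg]
              ext y
              simp only [mem_union, mem_image, mem_univ, true_and]
              constructor
              · rintro (⟨a, ha, rfl⟩ | ⟨a, rfl⟩)
                · exact ⟨a, hXJ ha, rfl⟩
                · exact ⟨a, (mem_sdiff.1 a.2).1, rfl⟩
              · rintro ⟨a, ha, rfl⟩
                by_cases haX : a ∈ X
                · exact Or.inl ⟨a, haX, rfl⟩
                · exact Or.inr ⟨⟨a, mem_sdiff.2 ⟨ha, haX⟩⟩, rfl⟩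
            rw [this]
            exact hJφ
        · intro φ hφ ψ hψ heq
          rw [mem_coe, mem_filter, Prod.mk.injEq] at hφ hψ
          funext a
          by_cases haX : a ∈ X
          · have e1 := congrFun hφ.2.1 ⟨a, haX⟩
            have e2 := congrFun hψ.2.1 ⟨a, haX⟩
            exact e1.trans e2.symm
          · by_cases haJ : a ∈ J
            · exact congrFun heq ⟨a, mem_sdiff.2 ⟨haJ, haX⟩⟩
            · have e1 := congrFun hφ.2.2 ⟨a, haJ⟩
              have e2 := congrFun hψ.2.2 ⟨a, haJ⟩
              exact e1.trans e2.symm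
      exact_mod_cast h4
  refine (Finset.sum_le_sum h2).trans (le_of_eq ?_)
  rw [sum_const, card_univ, Fintype.card_prod, Fintype.card_fun, Fintype.card_fun,
    Fintype.card_fin, Fintype.card_coe, hX, Fintype.card_subtype_compl, Fintype.card_fin,
    Fintype.card_coe, hJ, nsmul_eq_mul]
  push_cast
  have h5 : (n : ℝ) ^ m = (n : ℝ) ^ s * (n : ℝ) ^ (m - t) * (n : ℝ) ^ (t - s) := by
    rw [← pow_add, ← pow_add]
    congr 1
    omega
  rw [h5]
  ring

theorem main : S_FD := by
  intro s t m n ε G hst hε hG hK
  have hsub : badm t m (full s t ε G) ⊆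
      ((univ : Finset (Finset (Fin m) × Finset (Fin m))).filter
        fun p => p.2 ⊆ p.1 ∧ p.1.card = t).biUnion
        fun p => univ.filter fun φ : Fin m → Fin n => Function.Injective φ ∧
          p.2.image φ ∈ full s t ε G ∧ p.1.image φ ∉ G := by
    intro φ hφ
    unfold badm at hφ
    rw [mem_filter] at hφ
    obtain ⟨-, hi, hb⟩ := hφ
    obtain ⟨e, he, het, heG⟩ := hK (univ.image φ) (by
      rw [card_image_of_injective _ hi, card_univ, Fintype.card_fin])
    obtain ⟨J, hJ⟩ : ∃ J : Finset (Fin m), J = univ.filter fun a => φ a ∈ e := ⟨_, rfl⟩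
    have hJe : J.image φ = e := by
      ext y
      rw [mem_image]
      constructor
      · rintro ⟨a, ha, rfl⟩
        rw [hJ, mem_filter] at ha
        exact ha.2
      · intro hy
        obtain ⟨a, -, rfl⟩ := mem_image.1 (he hy)
        refine ⟨a, ?_, rfl⟩
        rw [hJ, mem_filter]
        exact ⟨mem_univ _, hy⟩
    have hJc : J.card = t := by
      rw [← het, ← hJe, card_image_of_injective _ hi]
    obtain ⟨X, hXJ, hX⟩ := hb J hJc
    rw [mem_biUnion]
    refine ⟨(J, X), ?_, ?_⟩
    · rw [mem_filter]
      exact ⟨mem_univ _, hXJ, hJc⟩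
    · rw [mem_filter]
      refine ⟨mem_univ _, hi, hX, ?_⟩
      show J.image φ ∉ G
      rw [hJe]
      exact heG
  have h1 : ((badm t m (full s t ε G)).card : ℝ) ≤
      ∑ p ∈ (univ : Finset (Finset (Fin m) × Finset (Fin m))).filter
        fun p => p.2 ⊆ p.1 ∧ p.1.card = t,
        ((univ.filter fun φ : Fin m → Fin n => Function.Injective φ ∧
          p.2.image φ ∈ full s t ε G ∧ p.1.image φ ∉ G).card : ℝ) := by
    rw [← Nat.cast_sum]
    exact_mod_cast (card_le_card hsub).trans card_biUnion_le
  refine h1.trans ?_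
  have h2 : ∀ p ∈ (univ : Finset (Finset (Fin m) × Finset (Fin m))).filter
        fun p => p.2 ⊆ p.1 ∧ p.1.card = t,
        ((univ.filter fun φ : Fin m → Fin n => Function.Injective φ ∧
          p.2.image φ ∈ full s t ε G ∧ p.1.image φ ∉ G).card : ℝ) ≤ ε * (n : ℝ) ^ m := by
    intro p hp
    rw [mem_filter] at hp
    exact card_A hst hε hG p.1 p.2 hp.2.1 hp.2.2
  refine (Finset.sum_le_sum h2).trans ?_
  rw [sum_const, nsmul_eq_mul]
  have h3 : ((((univ : Finset (Finset (Fin m) × Finset (Fin m))).filter
        fun p => p.2 ⊆ p.1 ∧ p.1.card = t).card : ℕ) : ℝ) ≤ 4 ^ m := by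
    have h4 : ((univ : Finset (Finset (Fin m) × Finset (Fin m))).filter
        fun p => p.2 ⊆ p.1 ∧ p.1.card = t).card ≤ 4 ^ m := by
      refine (card_le_univ _).trans ?_
      rw [Fintype.card_prod, Fintype.card_finset, Fintype.card_fin, ← mul_pow]
      norm_num
    exact_mod_cast h4
  have h5 : 0 ≤ ε * (n : ℝ) ^ m := by positivity
  calc _ ≤ 4 ^ m * (ε * (n : ℝ) ^ m) := mul_le_mul_of_nonneg_right h3 h5
    _ = _ := by ring

end Pool.Agent.N424.CT.FD
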